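import Pool.Agent.Helper92.PU.St

/-!
# Project PU, module DY3: primitive sorted solutions in a dyadic range
-/

set_option autoImplicit false

open Finset

noncomputable section

namespace Pool.Agent.Helper32.PU

open Pool.Agent.Helper92.PU Pool.Agent.Helper92.PW

/-- **DY3** -/
theorem hDY3 (hGE2 : StGE2) (hDV2 : StDV2) : StDY3 := by
  intro k ε hk hε
  obtain ⟨C₁, B0, hC₁, hB0, h1⟩ := hGE2 k ε hk hε
  obtain ⟨C₂, hC₂, h2⟩ := hDV2 k ε hk hε
  refine ⟨C₁ + 2 * C₂ + C₂ * (B0 + 1), by positivity, ?_⟩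
  intro B X hB hX S hS
  have hBpos : 0 < B := by linarith
  set E : ℝ := B ^ (2 / 5 : ℝ) with hE
  have hE1 : 1 ≤ E := Real.one_le_rpow hB (by norm_num)
  set G : ℝ := B ^ ε with hG
  have hG0 : 0 < G := Real.rpow_pos_of_pos hBpos _
  set Y : ℝ := X * B ^ (-(1 / 10) : ℝ) with hY
  have hY0 : 0 ≤ Y := by positivity
  rcases lt_or_ge B B0 with hlt | hge
  · -- small `B`
    have h3 := h2 B B hB hBpos.le S (fun p hp => by
      obtain ⟨a1, a2, a3, a4, a5, a6, a7⟩ := hS p hp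
      exact ⟨a1, ⟨(a3.trans a4).trans a6, a4.trans a6, a6⟩, (a3.trans a4).trans a6⟩)
    calc (S.card : ℝ) ≤ C₂ * (B + 1) * G := h3
      _ ≤ C₂ * (B0 + 1) * G := by
        apply mul_le_mul_of_nonneg_right _ hG0.le
        apply mul_le_mul_of_nonneg_left _ hC₂.le
        linarith
      _ ≤ (C₁ + 2 * C₂ + C₂ * (B0 + 1)) * (Y + E) * G := by
        apply mul_le_mul_of_nonneg_right _ hG0.le
        have h4 : C₂ * (B0 + 1) * 1 ≤ (C₁ + 2 * C₂ + C₂ * (B0 + 1)) * (Y + E) := by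
          apply mul_le_mul _ (by linarith) zero_le_one (by positivity)
          linarith
        linarith
  · classical
    have hbB : B ^ (-(3 / 5) : ℝ) * B = E := by
      rw [hE]
      nth_rewrite 2 [← Real.rpow_one B]
      rw [← Real.rpow_add hBpos]
      congr 1
      norm_num
    have h3 := h1 B X hge hX (S.filter fun p => E ≤ |(p.1 : ℝ)|) (fun p hp => by
      rw [Finset.mem_filter] at hp
      obtain ⟨a1, a2, a3, a4, a5, a6, a7⟩ := hS p hp.1
      exact ⟨⟨a1, a2, a3, a4, a5, a6, by rw [hbB]; exact hp.2⟩, a7⟩)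
    have h4 := h2 B E hB (by linarith) (S.filter fun p => ¬ E ≤ |(p.1 : ℝ)|) (fun p hp => by
      rw [Finset.mem_filter] at hp
      obtain ⟨a1, a2, a3, a4, a5, a6, a7⟩ := hS p hp.1
      exact ⟨a1, ⟨(a3.trans a4).trans a6, a4.trans a6, a6⟩, (not_le.mp hp.2).le⟩)
    have h5 : (S.card : ℝ) = ((S.filter fun p => E ≤ |(p.1 : ℝ)|).card : ℝ)
        + ((S.filter fun p => ¬ E ≤ |(p.1 : ℝ)|).card : ℝ) := by
      rw [← Nat.cast_add, Finset.card_filter_add_card_filter_not]
    rw [h5]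
    have h6 : C₁ * (Y + 1) * G ≤ C₁ * (Y + E) * G := by
      apply mul_le_mul_of_nonneg_right _ hG0.le
      apply mul_le_mul_of_nonneg_left _ hC₁.le
      linarith
    have h7 : C₂ * (E + 1) * G ≤ 2 * C₂ * (Y + E) * G := by
      apply mul_le_mul_of_nonneg_right _ hG0.le
      have : C₂ * (E + 1) ≤ C₂ * (2 * (Y + E)) := by
        apply mul_le_mul_of_nonneg_left _ hC₂.le
        linarith
      linarith
    have h8 : 0 ≤ C₂ * (B0 + 1) * (Y + E) * G := by positivity
    have h9 : (C₁ + 2 * C₂ + C₂ * (B0 + 1)) * (Y + E) * G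
        = C₁ * (Y + E) * G + 2 * C₂ * (Y + E) * G + C₂ * (B0 + 1) * (Y + E) * G := by ring
    rw [h9]
    linarith

end Pool.Agent.Helper32.PU
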